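import Pool.Agent.Lib_MP_247aa4.NI
import Pool.Agent.Lib_MP_247aa4.Ex

/-!
# MP_247aa4_al: the isomorphism problem for atomic submonoids with finitely many units

Let `G` be a finitely generated virtually free group. It is decidable whether a finitely generated submonoid `M` of `G`
has only finitely many units and is generated by its units and its irreducible elements. For these `M` and arbitrary
finitely generated submonoids `N` it is decidable whether `M` and `N` are isomorphic. The class contains all `M` in
which every element has only finitely many factorizations, and it is larger.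
-/

set_option autoImplicit false

namespace Pool.Agent.Results.MP_247aa4_al.AtomicDecidable

/-- words over the generators (`true`) and their inverses (`false`) -/
abbrev Word (n : ℕ) := List (Fin n × Bool)

/-- the element of `G` given by a word -/
def value {G : Type} [Group G] {n : ℕ} (g : Fin n → G) (w : Word n) : G :=
  (w.map fun a => if a.2 then g a.1 else (g a.1)⁻¹).prod

/-- the submonoid of `G` generated by the finite set of the values of the words of `S` -/
def Mon {G : Type} [Group G] {n : ℕ} (g : Fin n → G) (S : List (Word n)) : Submonoid G :=
  Submonoid.closure {x | ∃ w ∈ S, x = value g w}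

/-- `G` has a free subgroup of finite index -/
def VirtuallyFree (G : Type) [Group G] : Prop :=
  ∃ H : Subgroup G, H.FiniteIndex ∧ IsFreeGroup H

/-- `M` has only finitely many units and it is generated by its units and its irreducible elements (the elements
which are not units and not products of two nonunits) -/
def FiniteUnitsAtomic (M : Type) [Monoid M] : Prop :=
  Finite Mˣ ∧ Submonoid.closure {x : M | IsUnit x ∨ Irreducible x} = ⊤

/-- the factorizations of `x`: the finite sequences of elements different from `1` with product `x` -/
def Factorizations {M : Type} [Monoid M] (x : M) : Set (List M) :=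
  {l | (∀ a ∈ l, a ≠ 1) ∧ l.prod = x}

/-- **Theorem.** Let `G` be a virtually free group with the finite generating set `g 0, ..., g (n - 1)`.

(a) It is decidable whether the submonoid generated by a finite set `S` of words satisfies `FiniteUnitsAtomic`.

(b) It is decidable for pairs `(S, T)` whether the submonoid generated by `S` satisfies `FiniteUnitsAtomic` and is
isomorphic to the submonoid generated by `T`.

(c) Every monoid in which each element has only finitely many factorizations satisfies `FiniteUnitsAtomic`.

(d) The free group on three generators has a finitely generated submonoid which satisfies `FiniteUnitsAtomic` and has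
an element with infinitely many factorizations. -/
theorem result :
    (∀ (G : Type) [Group G], VirtuallyFree G → ∀ (n : ℕ) (g : Fin n → G),
      Subgroup.closure (Set.range g) = ⊤ →
        ComputablePred (fun S : List (Word n) => FiniteUnitsAtomic (Mon g S)) ∧
        ComputablePred (fun p : List (Word n) × List (Word n) =>
          FiniteUnitsAtomic (Mon g p.1) ∧ Nonempty (Mon g p.1 ≃* Mon g p.2))) ∧
    (∀ (M : Type) [Monoid M], (∀ x : M, (Factorizations x).Finite) → FiniteUnitsAtomic M) ∧
    ∃ S : List (Word 3), FiniteUnitsAtomic (Mon (FreeGroup.of : Fin 3 → FreeGroup (Fin 3)) S) ∧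
      ∃ x : Mon (FreeGroup.of : Fin 3 → FreeGroup (Fin 3)) S, (Factorizations x).Infinite := by
  refine ⟨?_, ?_, ?_⟩
  · intro G _ hG n g hg
    obtain ⟨τ, hτ, hm⟩ := Pool.MP_247aa4_al.exists_tdc hG g
    constructor
    · exact (Pool.MP_247aa4_al.sig_fa hg hτ (S := fun S : List (Word n) => S) Primrec.id).computable
        (Pool.MP_247aa4_al.sig_nfa hg hτ hm Primrec.id)
    · exact ((Pool.MP_247aa4_al.sig_fa hg hτ (S := fun p : List (Word n) × List (Word n) => p.1)
        Primrec.fst).and (Pool.MP_247aa4_al.sig_iso hg hτ (S := fun p : List (Word n) × List (Word n) => p.1)
        (T := fun p => p.2) Primrec.fst Primrec.snd)).computable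
        (Pool.MP_247aa4_al.sig_niso hg hτ hm (S := fun p : List (Word n) × List (Word n) => p.1)
        (T := fun p => p.2) Primrec.fst Primrec.snd)
  · intro M _ h
    exact Pool.MP_247aa4_al.fa_of_fact h
  · exact ⟨Pool.MP_247aa4_al.exS, Pool.MP_247aa4_al.exS_fa, Pool.MP_247aa4_al.exS_inf⟩

end Pool.Agent.Results.MP_247aa4_al.AtomicDecidable
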