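import Pool.Agent.Lib_MP_247aa4.SigU

/-!
# MP_247aa4_al: the isomorphism problem is recursively enumerable

Let `G` be a finitely generated virtually free group. There is an algorithm which stops exactly on the pairs of finite
sets `S`, `T` for which the submonoids generated by `S` and by `T` are isomorphic. It is decidable whether a given
assignment `s_i ↦ t_i` of the generators extends to a homomorphism, and whether it extends to an isomorphism.
-/

set_option autoImplicit false

namespace Pool.Agent.Results.MP_247aa4_al.RecursivelyEnumerable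

/-- words over the generators (`true`) and their inverses (`false`) -/
abbrev Word (n : ℕ) := List (Fin n × Bool)

/-- the element of `G` given by a word -/
def value {G : Type} [Group G] {n : ℕ} (g : Fin n → G) (w : Word n) : G :=
  (w.map fun a => if a.2 then g a.1 else (g a.1)⁻¹).prod

/-- the submonoid of `G` generated by the finite set of the values of the words of `S` -/
def Mon {G : Type} [Group G] {n : ℕ} (g : Fin n → G) (S : List (Word n)) : Submonoid G :=
  Submonoid.closure {x | ∃ w ∈ S, x = value g w}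

/-- `G` has a free subgroup of finite index -/
def VirtuallyFree (G : Type) [Group G] : Prop :=
  ∃ H : Subgroup G, H.FiniteIndex ∧ IsFreeGroup H

open Pool.MP_247aa4_al (OK fl KK KK_swap KK_le_Gr map_fst_KK map_snd_KK ok_iff_hom ok_of_hom ok_of_inj mem_Mon
  ok_fl_iff_KK Mon_le)

private theorem hom_iff {G : Type} [Group G] {n : ℕ} (g : Fin n → G) (L : List (Word n × Word n)) :
    OK g (fl L) 0 0 0 0 True ↔ ∃ φ : Mon g (L.map Prod.fst) →* Mon g (L.map Prod.snd),
      ∀ p ∈ L, ∃ h : value g p.1 ∈ Mon g (L.map Prod.fst), (φ ⟨value g p.1, h⟩ : G) = value g p.2 := by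
  constructor
  · intro h
    obtain ⟨φ, hφ⟩ := (ok_iff_hom L).1 h
    exact ⟨φ, fun p hp => ⟨mem_Mon (List.mem_map.2 ⟨p, hp, rfl⟩), congrArg Subtype.val (hφ p hp)⟩⟩
  · rintro ⟨φ, hφ⟩
    exact ok_of_hom φ L hφ

private theorem equiv_iff {G : Type} [Group G] {n : ℕ} (g : Fin n → G) (L : List (Word n × Word n)) :
    (OK g (fl L) 0 0 0 0 True ∧ OK g (fl (L.map Prod.swap)) 0 0 0 0 True) ↔
      ∃ φ : Mon g (L.map Prod.fst) ≃* Mon g (L.map Prod.snd),
      ∀ p ∈ L, ∃ h : value g p.1 ∈ Mon g (L.map Prod.fst), (φ ⟨value g p.1, h⟩ : G) = value g p.2 := by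
  constructor
  · rintro ⟨h1, h2⟩
    obtain ⟨φ, hφ⟩ := (hom_iff g L).1 h1
    have hgr : ∀ x : Mon g (L.map Prod.fst), ((x : G), (φ x : G)) ∈ KK g L := by
      rintro ⟨x, hx⟩
      have hx' := hx
      change x ∈ Pool.MP_247aa4_al.Mon g (L.map Prod.fst) at hx'
      rw [← map_fst_KK] at hx'
      obtain ⟨⟨a, b⟩, hz, he⟩ := hx'
      have he' : a = x := he
      subst he'
      obtain ⟨h3, h4⟩ := KK_le_Gr φ L hφ hz
      have h5 : (φ ⟨a, hx⟩ : G) = b := h4
      change (a, (φ ⟨a, hx⟩ : G)) ∈ KK g L
      rw [h5]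
      exact hz
    rw [ok_fl_iff_KK] at h2
    refine ⟨MulEquiv.ofBijective φ ⟨?_, ?_⟩, hφ⟩
    · intro x y hxy
      have h3 := (KK_swap L _ _).2 (hgr x)
      have h4 := (KK_swap L _ _).2 (hgr y)
      rw [hxy] at h3
      exact Subtype.ext (h2 _ _ _ h3 h4)
    · rintro ⟨y, hy⟩
      have hy' := hy
      change y ∈ Pool.MP_247aa4_al.Mon g (L.map Prod.snd) at hy'
      rw [← map_snd_KK] at hy'
      obtain ⟨⟨a, b⟩, hz, he⟩ := hy'
      have he' : b = y := he
      obtain ⟨h3, h4⟩ := KK_le_Gr φ L hφ hz
      exact ⟨⟨a, h3⟩, Subtype.ext (h4.trans he')⟩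
  · rintro ⟨e, he⟩
    exact ⟨ok_of_hom e.toMonoidHom L he, ok_of_inj e.toMonoidHom e.injective L he⟩

/-- **Theorem.** Let `G` be a virtually free group with the finite generating set `g 0, ..., g (n - 1)`.

(a) The set of the pairs `(S, T)` of finite sets of words for which the submonoids of `G` generated by `S` and `T` are
isomorphic is recursively enumerable.

(b) It is decidable whether for given words `s_1, ..., s_k`, `t_1, ..., t_k` the assignment `s_i ↦ t_i` extends to a
homomorphism of the submonoid generated by the `s_i` to the submonoid generated by the `t_i`.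

(c) It is decidable whether it extends to an isomorphism. -/
theorem result (G : Type) [Group G] (hG : VirtuallyFree G) (n : ℕ) (g : Fin n → G)
    (hg : Subgroup.closure (Set.range g) = ⊤) :
    REPred (fun p : List (Word n) × List (Word n) => Nonempty (Mon g p.1 ≃* Mon g p.2)) ∧
    ComputablePred (fun L : List (Word n × Word n) =>
      ∃ φ : Mon g (L.map Prod.fst) →* Mon g (L.map Prod.snd),
        ∀ p ∈ L, ∃ h : value g p.1 ∈ Mon g (L.map Prod.fst), (φ ⟨value g p.1, h⟩ : G) = value g p.2) ∧
    ComputablePred (fun L : List (Word n × Word n) =>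
      ∃ φ : Mon g (L.map Prod.fst) ≃* Mon g (L.map Prod.snd),
        ∀ p ∈ L, ∃ h : value g p.1 ∈ Mon g (L.map Prod.fst), (φ ⟨value g p.1, h⟩ : G) = value g p.2) := by
  obtain ⟨τ, hτ, _⟩ := Pool.MP_247aa4_al.exists_tdc hG g
  have h1 := Pool.MP_247aa4_al.sig_ok_fl hg hτ (L := fun L : List (Word n × Word n) => L) Primrec.id
  have h2 := Pool.MP_247aa4_al.sig_ok_fl hg hτ (L := fun L : List (Word n × Word n) => L.map Prod.swap)
    (Pool.MP_247aa4_al.prim_swap Primrec.id)
  have h3 := Pool.MP_247aa4_al.sig_nok hτ (L := fun L : List (Word n × Word n) => L) Primrec.id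
  have h4 := Pool.MP_247aa4_al.sig_nok hτ (L := fun L : List (Word n × Word n) => L.map Prod.swap)
    (Pool.MP_247aa4_al.prim_swap Primrec.id)
  refine ⟨?_, ?_, ?_⟩
  · exact (Pool.MP_247aa4_al.sig_iso hg hτ (S := fun p : List (Word n) × List (Word n) => p.1)
      (T := fun p => p.2) Primrec.fst Primrec.snd).re
  · exact (h1.computable h3).of_eq fun L => hom_iff g L
  · refine ((h1.and h2).computable ((h3.or h4).of_eq fun L => ?_)).of_eq fun L => equiv_iff g L
    tauto

end Pool.Agent.Results.MP_247aa4_al.RecursivelyEnumerable
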